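import Mathlib
import Pool.Agent.R178.CubeMain
import Pool.Agent.R178.SimplexVol

set_option autoImplicit false

namespace Pool.Agent.Results.MP_7b3c84_co.GrowthOrder

/-- `T` is a triangulation of the cube `[0,1]^n`, each simplex being given by its vertex set:
the vertex sets consist of `n+1` affinely independent points of `{0,1}^n`, the simplices cover
exactly the cube, and any two of them meet in the hull of their common vertices. -/
def IsCubeTriangulation (n : ℕ) (T : Finset (Finset (Fin n → ℝ))) : Prop :=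
  (∀ S ∈ T, S.card = n + 1 ∧ AffineIndependent ℝ (fun x : S => (x : Fin n → ℝ)) ∧
      ∀ v ∈ S, ∀ i : Fin n, v i = 0 ∨ v i = 1) ∧
  (⋃ S ∈ T, convexHull ℝ (↑S : Set (Fin n → ℝ))) = Set.Icc (0 : Fin n → ℝ) 1 ∧
  (∀ S ∈ T, ∀ S' ∈ T, convexHull ℝ (↑S : Set (Fin n → ℝ)) ∩ convexHull ℝ (↑S' : Set (Fin n → ℝ)) =
      convexHull ℝ ((↑S : Set (Fin n → ℝ)) ∩ (↑S' : Set (Fin n → ℝ))))

/-- the least size `T(n)` of a triangulation of the `n`-cube -/
noncomputable def minSize (n : ℕ) : ℕ :=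
  sInf {m : ℕ | ∃ T, IsCubeTriangulation n T ∧ T.card = m}

theorem result (n : ℕ) :
    (∃ T, IsCubeTriangulation n T ∧ T.card = minSize n) ∧
    2 ^ n * (n.factorial : ℝ) / Real.sqrt (((n:ℝ) + 1) ^ (n + 1)) ≤ (minSize n : ℝ) ∧
    (minSize n : ℝ) ≤ Real.pi ^ n * Real.sqrt ((n.factorial : ℝ) / ((n:ℝ) + 1)) ∧
    (Real.sqrt n / Real.exp 1) ^ n ≤ (minSize n : ℝ) ∧
    (minSize n : ℝ) ≤ (Real.pi * Real.sqrt n) ^ n := by
  obtain ⟨T, h1, h2, h3, h4⟩ := Pool.R178.exists_small_triangulation n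
  have hT : IsCubeTriangulation n T := by
    refine ⟨h1, h2, fun S hS S' hS' => ?_⟩
    rw [h3 S hS S' hS', Finset.coe_inter]
  have hne : {m : ℕ | ∃ T, IsCubeTriangulation n T ∧ T.card = m}.Nonempty := ⟨T.card, T, hT, rfl⟩
  obtain ⟨T0, hT0, hc0⟩ := Nat.sInf_mem hne
  have hlow : 2 ^ n * (n.factorial : ℝ) / Real.sqrt (((n:ℝ) + 1) ^ (n + 1)) ≤
      (minSize n : ℝ) := by
    have := Pool.R178.card_lower_bound T0 (fun S hS => (hT0.1 S hS).1) hT0.2.1
    rw [hc0] at this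
    exact this
  have hup : (minSize n : ℝ) ≤ Real.pi ^ n * Real.sqrt ((n.factorial : ℝ) / ((n:ℝ) + 1)) := by
    refine le_trans ?_ h4
    have hle : minSize n ≤ T.card := Nat.sInf_le ⟨T, hT, rfl⟩
    exact_mod_cast hle
  exact ⟨⟨T0, hT0, hc0⟩, hlow, hup, (Pool.R178.lower_simple n).trans hlow,
    hup.trans (Pool.R178.upper_simple n)⟩

end Pool.Agent.Results.MP_7b3c84_co.GrowthOrder
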